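import Pool.Agent.H84.LSB.TargetsHL

/-!
MP_ee74d2_an, row HKN: kernels of the multipliers in the first frequency.
-/

set_option autoImplicit false

namespace Pool.Agent.H37.HLM

open MeasureTheory Set Pool.Agent.H83.G Pool.Agent.H88.B2 Pool.Agent.H84.LSB
open Pool.Agent.H82.FP (Tu)
open scoped ENNReal NNReal RealInnerProductSpace SchwartzMap FourierTransform

theorem e_add (x y : ℝ) : e (x + y) = e x * e y := by
  unfold e
  rw [← Complex.exp_add]
  congr 1
  push_cast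
  ring

theorem norm_e (x : ℝ) : ‖e x‖ = 1 := by
  unfold e
  exact Complex.norm_exp_ofReal_mul_I _

theorem conj_e (x : ℝ) : (starRingEnd ℂ) (e x) = e (-x) := by
  unfold e
  rw [← Complex.exp_conj, map_mul, Complex.conj_I, Complex.conj_ofReal]
  congr 1
  push_cast
  ring

theorem continuous_e : Continuous e := by
  unfold e
  fun_prop

/-- the kernel -/
theorem kernel (φ : ℝ → ℝ) (hφ : ContDiff ℝ (⊤ : ℕ∞) φ) (hs : ∀ x, φ x ≠ 0 → |x| ≤ 2) (N : ℕ) :
    ∃ K : ℝ → ℂ, Continuous K ∧ Integrable K ∧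
      (∃ C : ℝ, 1 ≤ C ∧ ∀ u, ‖K u‖ ≤ C * ((1 + |u|) ^ N)⁻¹) ∧
      (∀ x, (φ x : ℂ) = ∫ u, e (-(u * x)) * K u) ∧
      ∀ u, K u = ∫ v, e (u * v) * (φ v : ℂ) := by
  have hc : HasCompactSupport (fun x => (φ x : ℂ)) := by
    refine HasCompactSupport.of_support_subset_isCompact (isCompact_Icc (a := (-2 : ℝ)) (b := 2))
      fun x hx => ?_
    rw [Function.mem_support] at hx
    have := hs x (fun h => hx (by rw [h]; simp))
    exact abs_le.1 this
  have hd : ContDiff ℝ (⊤ : ℕ∞) (fun x => (φ x : ℂ)) := Complex.ofRealCLM.contDiff.comp hφ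
  let f : 𝓢(ℝ, ℂ) := hc.toSchwartzMap hd
  have hf : ∀ x, f x = (φ x : ℂ) := fun x => rfl
  let K : 𝓢(ℝ, ℂ) := 𝓕⁻ f
  refine ⟨K, K.continuous, K.integrable, ?_, ?_, ?_⟩
  · obtain ⟨C, hC⟩ : ∃ C : ℝ, ∀ x, (1 + ‖x‖) ^ N * ‖K x‖ ≤ C := by
      refine ⟨2 ^ N * (Finset.Iic (N, 0)).sup (fun m : ℕ × ℕ => SchwartzMap.seminorm ℝ m.1 m.2) K,
        fun x => ?_⟩
      have h := SchwartzMap.one_add_le_sup_seminorm_apply (𝕜 := ℝ) (m := (N, 0)) (k := N) (n := 0)
        le_rfl le_rfl K x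
      rw [norm_iteratedFDeriv_zero] at h
      exact h
    refine ⟨max 1 C, le_max_left _ _, fun u => ?_⟩
    have h := (hC u).trans (le_max_right 1 C)
    rw [Real.norm_eq_abs] at h
    rw [← div_eq_mul_inv, le_div_iff₀ (by positivity), mul_comm]
    exact h
  · intro x
    have h1 : 𝓕 K = f := FourierTransform.fourier_fourierInv_eq f
    have h2 : f x = 𝓕 (K : ℝ → ℂ) x := by
      rw [← SchwartzMap.fourier_coe, h1]
    rw [← hf, h2, Real.fourier_real_eq]
    refine integral_congr_ae (Filter.Eventually.of_forall fun u => ?_)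
    change (Real.fourierChar (-(u * x))) • K u = e (-(u * x)) * K u
    rw [Circle.smul_def, Real.fourierChar_apply, smul_eq_mul]
    rfl
  · intro u
    have h2 : K u = 𝓕⁻ (f : ℝ → ℂ) u := by
      change (𝓕⁻ f : 𝓢(ℝ, ℂ)) u = _
      rw [SchwartzMap.fourierInv_coe]
    rw [h2, Real.fourierInv_eq]
    refine integral_congr_ae (Filter.Eventually.of_forall fun v => ?_)
    change (Real.fourierChar (inner ℝ v u)) • f v = e (u * v) * (φ v : ℂ)
    rw [Circle.smul_def, Real.fourierChar_apply, smul_eq_mul, hf]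
    rfl

theorem continuous_ph {m : ℕ} : Continuous fun p : Z m × Z m => ph p.1 p.2 := by
  unfold ph
  fun_prop

theorem TF_mu1 {m : ℕ} {φ : ℝ → ℝ} {K : ℝ → ℂ} (hK : Continuous K) (hKi : Integrable K)
    (hKφ : ∀ x, (φ x : ℂ) = ∫ u, e (-(u * x)) * K u) {w : ℝ} {G : Z m → ℂ} (hG : TC G)
    (z : Z m) :
    TF (mu1 φ w G) z = ∫ u : ℝ, K u * TF G (z - (w * u, 0, 0)) := by
  have hGc : Continuous G := hG.1.continuous
  have hGi : Integrable G := hGc.integrable_of_hasCompactSupport hG.2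
  have hph : ∀ (u : ℝ) (ζ : Z m), ph (z - (w * u, 0, 0)) ζ = ph z ζ + -(u * (w * ζ.1)) := by
    intro u ζ
    unfold ph
    change (z.1 - w * u) * ζ.1 + ⟪z.2.1 - 0, ζ.2.1⟫ + (z.2.2 - 0) * ζ.2.2 = _
    rw [sub_zero, sub_zero]
    ring
  have hint : Integrable (Function.uncurry fun (ζ : Z m) (u : ℝ) =>
      K u * (e (ph (z - (w * u, 0, 0)) ζ) * G ζ)) (volume.prod volume) := by
    refine (hGi.mul_prod hKi).mono ?_ (Filter.Eventually.of_forall fun p => ?_)
    · refine Continuous.aestronglyMeasurable ?_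
      have h1 : Continuous fun p : Z m × ℝ => ph (z - (w * p.2, 0, 0)) p.1 :=
        continuous_ph.comp (Continuous.prodMk (by fun_prop) continuous_fst)
      exact (hK.comp continuous_snd).mul ((continuous_e.comp h1).mul (hGc.comp continuous_fst))
    · change ‖K p.2 * (e _ * G p.1)‖ ≤ ‖G p.1 * K p.2‖
      rw [norm_mul, norm_mul, norm_e, one_mul, norm_mul, mul_comm]
  unfold TF
  calc ∫ ζ : Z m, e (ph z ζ) * mu1 φ w G ζ
      = ∫ ζ : Z m, ∫ u : ℝ, K u * (e (ph (z - (w * u, 0, 0)) ζ) * G ζ) := by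
        refine integral_congr_ae (Filter.Eventually.of_forall fun ζ => ?_)
        change e (ph z ζ) * ((φ (w * ζ.1) : ℂ) * G ζ) = _
        have h1 : e (ph z ζ) * ((φ (w * ζ.1) : ℂ) * G ζ) =
            (e (ph z ζ) * G ζ) * (φ (w * ζ.1) : ℂ) := by ring
        rw [h1, hKφ, ← integral_const_mul]
        refine integral_congr_ae (Filter.Eventually.of_forall fun u => ?_)
        change (e (ph z ζ) * G ζ) * (e (-(u * (w * ζ.1))) * K u) =
          K u * (e (ph (z - (w * u, 0, 0)) ζ) * G ζ)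
        rw [hph, e_add]
        ring
    _ = ∫ u : ℝ, ∫ ζ : Z m, K u * (e (ph (z - (w * u, 0, 0)) ζ) * G ζ) :=
        integral_integral_swap hint
    _ = _ := by
        refine integral_congr_ae (Filter.Eventually.of_forall fun u => ?_)
        exact integral_const_mul _ _

theorem TC_mu1 {m : ℕ} {φ : ℝ → ℝ} (hφ : ContDiff ℝ (⊤ : ℕ∞) φ) {w : ℝ} {G : Z m → ℂ}
    (hG : TC G) : TC (mu1 φ w G) := by
  refine ⟨?_, hG.2.mul_left⟩
  refine ContDiff.mul ?_ hG.1
  refine Complex.ofRealCLM.contDiff.comp (hφ.comp ?_)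
  fun_prop

theorem pf_HKN : T_HKN := by
  intro m N φ hφ hs
  obtain ⟨K, hK, hKi, ⟨C, hC1, hC⟩, hKφ, hKf⟩ := kernel φ hφ hs N
  refine ⟨C, hC1, fun w G hw hG => ⟨TC_mu1 hφ hG, fun z => ?_, fun hre z => ?_⟩⟩
  · rw [TF_mu1 hK hKi hKφ hG]
    refine (enorm_integral_le_lintegral_enorm _).trans ?_
    rw [← lintegral_const_mul' _ _ ENNReal.ofReal_ne_top]
    refine lintegral_mono fun u => ?_
    rw [enorm_mul, ← mul_assoc]
    refine mul_le_mul_left ?_ _
    rw [← ENNReal.ofReal_mul (by linarith), ← ofReal_norm]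
    exact ENNReal.ofReal_le_ofReal (hC u)
  · have hφ' : ContDiff ℝ (⊤ : ℕ∞) fun x => φ (-x) := hφ.comp contDiff_neg
    have hs' : ∀ x, φ (-x) ≠ 0 → |x| ≤ 2 := fun x hx => by
      have := hs _ hx
      rwa [abs_neg] at this
    obtain ⟨K', hK', hKi', -, hKφ', hKf'⟩ := kernel (fun x => φ (-x)) hφ' hs' N
    have hKK : ∀ u, K' u = (starRingEnd ℂ) (K u) := by
      intro u
      rw [hKf', hKf, ← integral_conj,
        ← integral_neg_eq_self (fun v => e (u * v) * ((φ (-v) : ℝ) : ℂ))]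
      refine integral_congr_ae (Filter.Eventually.of_forall fun v => ?_)
      change e (u * -v) * ((φ (- -v) : ℝ) : ℂ) = (starRingEnd ℂ) (e (u * v) * (φ v : ℂ))
      rw [neg_neg, map_mul, conj_e, Complex.conj_ofReal, mul_neg]
    have h1 : TF (mu1 (fun x => φ (-x)) w G) z = (starRingEnd ℂ) (TF (mu1 φ w G) z) := by
      rw [TF_mu1 hK' hKi' hKφ' hG, TF_mu1 hK hKi hKφ hG, ← integral_conj]
      refine integral_congr_ae (Filter.Eventually.of_forall fun u => ?_)
      change K' u * TF G (z - (w * u, 0, 0)) = (starRingEnd ℂ) (K u * TF G (z - (w * u, 0, 0)))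
      rw [map_mul, hKK, Complex.conj_eq_iff_im.2 (hre _)]
    rw [h1, RCLike.norm_conj]

end Pool.Agent.H37.HLM
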