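import Pool.Agent.H84.LSB.TargetsHL

/-!
MP_ee74d2_an, row OWS: the weights of the planks vary slowly.
-/

set_option autoImplicit false

namespace Pool.Agent.H37.HLM

open MeasureTheory Set Pool.Agent.H83.G Pool.Agent.H88.B2 Pool.Agent.H84.LSB
open Pool.Agent.H82.FP (Tu)
open scoped ENNReal NNReal RealInnerProductSpace

theorem inv_factor (N : ℕ) {a b c : ℝ} (ha : 0 ≤ a) (hb : 0 ≤ b) (hc : 0 ≤ c) (h : b ≤ c + a) :
    ((1 + a) ^ N)⁻¹ ≤ (1 + c) ^ N * ((1 + b) ^ N)⁻¹ := by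
  have h1 : 1 + b ≤ (1 + c) * (1 + a) := by nlinarith [mul_nonneg hc ha]
  have h2 : (1 + b) ^ N ≤ (1 + c) ^ N * (1 + a) ^ N := by
    rw [← mul_pow]
    exact pow_le_pow_left₀ (by linarith) h1 N
  rw [← div_eq_mul_inv, le_div_iff₀ (by positivity), inv_mul_le_iff₀ (by positivity), mul_comm]
  exact h2

theorem ww_le {m : ℕ} (N : ℕ) (R δ w : ℝ) (W : Pk m) (z z' : Z m) {C₀ X : ℝ} (hC : 0 ≤ C₀)
    (hX : 0 ≤ X) (h1 : |(R ^ δ / w) * (fc R δ W.1 z - fc R δ W.1 z').1| ≤ C₀ * X)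
    (h2 : ‖(fc R δ W.1 z - fc R δ W.1 z').2‖ ≤ C₀ * X) :
    ww N R δ w W z ≤ (1 + C₀) ^ (2 * N) * (1 + X) ^ (2 * N) * ww N R δ w W z' := by
  have hCX : 0 ≤ C₀ * X := mul_nonneg hC hX
  have hA : ((1 + |(R ^ δ / w) * (fc R δ W.1 z - zc W.2).1|) ^ N)⁻¹ ≤
      (1 + C₀ * X) ^ N * ((1 + |(R ^ δ / w) * (fc R δ W.1 z' - zc W.2).1|) ^ N)⁻¹ := by
    refine inv_factor N (abs_nonneg _) (abs_nonneg _) hCX ?_
    have h3 : (R ^ δ / w) * (fc R δ W.1 z' - zc W.2).1 =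
        (R ^ δ / w) * (fc R δ W.1 z - zc W.2).1 -
          (R ^ δ / w) * (fc R δ W.1 z - fc R δ W.1 z').1 := by
      change (R ^ δ / w) * ((fc R δ W.1 z').1 - (zc W.2).1) =
        (R ^ δ / w) * ((fc R δ W.1 z).1 - (zc W.2).1) -
          (R ^ δ / w) * ((fc R δ W.1 z).1 - (fc R δ W.1 z').1)
      ring
    rw [h3]
    have h4 := abs_sub ((R ^ δ / w) * (fc R δ W.1 z - zc W.2).1)
      ((R ^ δ / w) * (fc R δ W.1 z - fc R δ W.1 z').1)
    linarith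
  have hB : ((1 + ‖(fc R δ W.1 z - zc W.2).2‖) ^ N)⁻¹ ≤
      (1 + C₀ * X) ^ N * ((1 + ‖(fc R δ W.1 z' - zc W.2).2‖) ^ N)⁻¹ := by
    refine inv_factor N (norm_nonneg _) (norm_nonneg _) hCX ?_
    have h3 : (fc R δ W.1 z' - zc W.2).2 = (fc R δ W.1 z - zc W.2).2 -
        (fc R δ W.1 z - fc R δ W.1 z').2 := by
      change (fc R δ W.1 z').2 - (zc W.2).2 = ((fc R δ W.1 z).2 - (zc W.2).2) -
        ((fc R δ W.1 z).2 - (fc R δ W.1 z').2)
      abel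
    rw [h3]
    have h4 := norm_sub_le (fc R δ W.1 z - zc W.2).2 (fc R δ W.1 z - fc R δ W.1 z').2
    linarith
  have h5 : (1 + C₀ * X) ^ (2 * N) ≤ (1 + C₀) ^ (2 * N) * (1 + X) ^ (2 * N) := by
    rw [← mul_pow]
    exact pow_le_pow_left₀ (by linarith) (by nlinarith) _
  have hww : 0 ≤ ww N R δ w W z' := by unfold ww; positivity
  calc ww N R δ w W z ≤
      ((1 + C₀ * X) ^ N * ((1 + |(R ^ δ / w) * (fc R δ W.1 z' - zc W.2).1|) ^ N)⁻¹) *
      ((1 + C₀ * X) ^ N * ((1 + ‖(fc R δ W.1 z' - zc W.2).2‖) ^ N)⁻¹) := by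
        unfold ww
        exact mul_le_mul hA hB (by positivity) (by positivity)
    _ = (1 + C₀ * X) ^ (2 * N) * ww N R δ w W z' := by
        unfold ww
        ring
    _ ≤ _ := mul_le_mul_of_nonneg_right h5 hww

/-- the first coordinate does not depend on the radius -/
theorem Lo_fst {m : ℕ} (η : E m) (s s' : ℝ) (z : Z m) : (Lo η s z).1 = (Lo η s' z).1 := rfl

theorem snd_le {m : ℕ} (η : E m) {s w r : ℝ} (u : Z m) (hs : 0 ≤ s) (hw : 0 ≤ w) (hr : w * s ≤ r)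
    (hr2 : w * s ^ 2 ≤ r ^ 2) : ‖(w • Lo η s u).2‖ ≤ ‖(Lo η r u).2‖ := by
  have h0 : 0 ≤ w * s := mul_nonneg hw hs
  change ‖(w • (s • (u.2.1 + (2 * u.2.2) • η)), w • (s ^ 2 * u.2.2))‖ ≤
    ‖(r • (u.2.1 + (2 * u.2.2) • η), r ^ 2 * u.2.2)‖
  rw [Prod.norm_def, Prod.norm_def]
  refine max_le_max ?_ ?_
  · change ‖w • (s • (u.2.1 + (2 * u.2.2) • η))‖ ≤ ‖r • (u.2.1 + (2 * u.2.2) • η)‖
    rw [smul_smul, norm_smul, norm_smul, Real.norm_of_nonneg h0, Real.norm_of_nonneg (h0.trans hr)]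
    exact mul_le_mul_of_nonneg_right hr (norm_nonneg _)
  · change ‖w * (s ^ 2 * u.2.2)‖ ≤ ‖r ^ 2 * u.2.2‖
    have h1 : 0 ≤ w * s ^ 2 := by positivity
    have h2 : 0 ≤ r ^ 2 := sq_nonneg r
    rw [← mul_assoc, norm_mul (w * s ^ 2) u.2.2, norm_mul (r ^ 2) u.2.2, Real.norm_of_nonneg h1,
      Real.norm_of_nonneg h2]
    exact mul_le_mul_of_nonneg_right hr2 (norm_nonneg u.2.2)

theorem lo_split {m : ℕ} (c η : E m) (s : ℝ) (u : Z m) :
    (Lo c s u).1 = (u.1 + ⟪u.2.1, η⟫ + u.2.2 * ‖η‖ ^ 2) +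
      ⟪u.2.1 + (2 * u.2.2) • η, c - η⟫ + u.2.2 * ‖c - η‖ ^ 2 := by
  change u.1 + ⟪u.2.1, c⟫ + u.2.2 * ‖c‖ ^ 2 = _
  rw [norm_sub_sq_real, inner_sub_right, inner_add_left, inner_add_left, real_inner_smul_left,
    real_inner_smul_left, real_inner_self_eq_norm_sq, real_inner_comm η c]
  ring

theorem pf_OWS (hLOA : T_LOA) (hLOB : T_LOB) (_hWT1 : T_WT1) : T_OWS := by
  intro m N D hD
  obtain ⟨hL1, hL2, -⟩ := hLOA m
  obtain ⟨hB1, -, hB3, -⟩ := hLOB m D hD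
  obtain ⟨C₀, hC₀⟩ : ∃ C₀ : ℝ, C₀ = (1 + 2 * D) ^ 2 := ⟨_, rfl⟩
  have hC0 : 0 ≤ C₀ := by rw [hC₀]; positivity
  have hC1 : (1 + D) ^ 2 ≤ C₀ := by rw [hC₀]; nlinarith
  have hC2 : 1 + 2 * D + 4 * D ^ 2 ≤ C₀ := by rw [hC₀]; nlinarith
  have hC3 : 1 + 4 * D ≤ C₀ := by rw [hC₀]; nlinarith [sq_nonneg D]
  refine ⟨(1 + C₀) ^ (2 * N), one_le_pow₀ (by linarith), ?_⟩
  intro R δ w W z z' hR hδ hw hwR hctr
  have hR0 : 0 < R := by linarith
  have hw0 : 0 < w := by linarith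
  have hsq : 0 < Real.sqrt R := Real.sqrt_pos.2 hR0
  have hs0 : 0 < sR R := inv_pos.2 hsq
  have hws : w * sR R ≤ 1 := by
    unfold sR
    rw [← div_eq_mul_inv, div_le_one hsq]
    exact hwR
  have hs1 : sR R ≤ 1 := by nlinarith
  have hRd : 0 < R ^ δ := Real.rpow_pos_of_pos hR0 _
  have hRn : 0 < R ^ (-δ) := Real.rpow_pos_of_pos hR0 _
  have hRn1 : R ^ (-δ) ≤ 1 := Real.rpow_le_one_of_one_le_of_nonpos hR (by linarith)
  have hRR : R ^ δ * R ^ (-δ) = 1 := by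
    rw [← Real.rpow_add hR0]
    simp
  obtain ⟨c, hc⟩ : ∃ c : E m, c = ctr (sR R) W.1 := ⟨_, rfl⟩
  rw [← hc] at hctr
  have hfc : fc R δ W.1 z - fc R δ W.1 z' = R ^ (-δ) • Lo c (sR R) (z - z') := by
    unfold fc
    rw [(hL1 _ _ _ _).2.1, smul_sub, hc]
  obtain ⟨u, hu⟩ : ∃ u : Z m, u = z - z' := ⟨_, rfl⟩
  rw [← hu] at hfc ⊢
  have hsnd : ‖(R ^ (-δ) • Lo c (sR R) u).2‖ ≤ ‖(Lo c (sR R) u).2‖ := by
    change ‖R ^ (-δ) • (Lo c (sR R) u).2‖ ≤ _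
    rw [norm_smul, Real.norm_of_nonneg hRn.le]
    exact mul_le_of_le_one_left (norm_nonneg _) hRn1
  have hfst : ∀ w' : ℝ, 0 < w' → (R ^ δ / w') * (R ^ (-δ) • Lo c (sR R) u).1 =
      w'⁻¹ * (Lo c (sR R) u).1 := by
    intro w' hw'
    change (R ^ δ / w') * (R ^ (-δ) * (Lo c (sR R) u).1) = _
    calc (R ^ δ / w') * (R ^ (-δ) * (Lo c (sR R) u).1) =
        (R ^ δ * R ^ (-δ)) * (w'⁻¹ * (Lo c (sR R) u).1) := by ring
      _ = _ := by rw [hRR, one_mul]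
  have huw : u = w • (w⁻¹ • u) := by rw [smul_smul, mul_inv_cancel₀ hw0.ne', one_smul]
  obtain ⟨u', hu'⟩ : ∃ u' : Z m, u' = w⁻¹ • u := ⟨_, rfl⟩
  rw [← hu'] at huw ⊢
  have hlin : Lo c (sR R) u = w • Lo c (sR R) u' := by rw [huw, (hL2 _ _ _ _).1]
  refine ⟨?_, ?_, ?_, ?_⟩
  · -- balls
    intro w' hw'
    have hb := (hB1 c 1 u' hctr zero_le_one le_rfl).1
    refine ww_le N R δ w' W z z' hC0 (norm_nonneg _) ?_ ?_
    · rw [hfc, hfst w' (by linarith), hlin]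
      change |w'⁻¹ * (w * (Lo c (sR R) u').1)| ≤ _
      have hw'0 : 0 < w' := by linarith
      rw [← mul_assoc, abs_mul, abs_of_nonneg (by positivity : (0 : ℝ) ≤ w'⁻¹ * w)]
      have h1 : w'⁻¹ * w ≤ 1 := by
        rw [inv_mul_le_iff₀ (by linarith), mul_one]
        exact hw'
      calc w'⁻¹ * w * |(Lo c (sR R) u').1| ≤ 1 * |(Lo c (sR R) u').1| :=
            mul_le_mul_of_nonneg_right h1 (abs_nonneg _)
        _ = |(Lo c 1 u').1| := by rw [one_mul]; rfl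
        _ ≤ ‖Lo c 1 u'‖ := norm_fst_le (Lo c 1 u')
        _ ≤ (1 + D) ^ 2 * ‖u'‖ := hb
        _ ≤ C₀ * ‖u'‖ := mul_le_mul_of_nonneg_right hC1 (norm_nonneg _)
    · rw [hfc]
      refine hsnd.trans ?_
      rw [hlin]
      calc ‖(w • Lo c (sR R) u').2‖ ≤ ‖(Lo c 1 u').2‖ :=
            snd_le c u' hs0.le hw0.le hws (by nlinarith)
        _ ≤ ‖Lo c 1 u'‖ := norm_snd_le (Lo c 1 u')
        _ ≤ (1 + D) ^ 2 * ‖u'‖ := hb
        _ ≤ C₀ * ‖u'‖ := mul_le_mul_of_nonneg_right hC1 (norm_nonneg _)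
  · -- planks
    intro η hη
    rw [← hc] at hη
    have hsw : sR R ≤ w⁻¹ := by
      rw [← one_div, le_div_iff₀ hw0]
      linarith
    have hb := hB3 η c w⁻¹ (sR R) u hs0 hsw (by rw [← div_eq_mul_inv]; exact hη)
    have h1 : ‖R ^ (-δ) • Lo c (sR R) u‖ ≤ C₀ * ‖Lo η w⁻¹ u‖ := by
      rw [norm_smul, Real.norm_of_nonneg hRn.le]
      calc R ^ (-δ) * ‖Lo c (sR R) u‖ ≤ 1 * ‖Lo c (sR R) u‖ :=
            mul_le_mul_of_nonneg_right hRn1 (norm_nonneg _)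
        _ ≤ (1 + D) ^ 2 * ‖Lo η w⁻¹ u‖ := by rw [one_mul]; exact hb
        _ ≤ C₀ * ‖Lo η w⁻¹ u‖ := mul_le_mul_of_nonneg_right hC1 (norm_nonneg _)
    refine ww_le N R δ (R ^ δ) W z z' hC0 (norm_nonneg _) ?_ ?_
    · rw [hfc, div_self hRd.ne', one_mul]
      exact (norm_fst_le (R ^ (-δ) • Lo c (sR R) u)).trans h1
    · rw [hfc]
      exact (norm_snd_le (R ^ (-δ) • Lo c (sR R) u)).trans h1
  · -- tubes
    intro η hη hw2
    have hw2s : w ^ 2 * sR R ≤ 1 := by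
      unfold sR
      rw [← div_eq_mul_inv, div_le_one hsq]
      exact hw2
    obtain ⟨X, hX⟩ : ∃ X : ℝ, X = ‖Tu η w u‖ := ⟨_, rfl⟩
    rw [← hX]
    have hX0 : 0 ≤ X := by rw [hX]; exact norm_nonneg _
    have hce : ‖c - η‖ ≤ 2 * D := (norm_sub_le _ _).trans (by linarith)
    have e1 : |u.1 + ⟪u.2.1, η⟫ + u.2.2 * ‖η‖ ^ 2| ≤ w * X := by
      have h1 : |w⁻¹ * (u.1 + ⟪u.2.1, η⟫ + u.2.2 * ‖η‖ ^ 2)| ≤ X := by
        rw [hX]
        exact norm_fst_le (Tu η w u)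
      rw [abs_mul, abs_of_pos (inv_pos.2 hw0), inv_mul_le_iff₀ hw0] at h1
      exact h1
    have e2 : ‖u.2.1 + (2 * u.2.2) • η‖ ≤ w * X := by
      have h1 : ‖w⁻¹ • (u.2.1 + (2 * u.2.2) • η)‖ ≤ X := by
        rw [hX]
        exact (norm_fst_le (Tu η w u).2).trans (norm_snd_le (Tu η w u))
      rw [norm_smul, Real.norm_of_nonneg (inv_nonneg.2 hw0.le), inv_mul_le_iff₀ hw0] at h1
      exact h1
    have e3 : |u.2.2| ≤ w ^ 2 * X := by
      have h1 : ‖(w⁻¹) ^ 2 * u.2.2‖ ≤ X := by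
        rw [hX]
        exact (norm_snd_le (Tu η w u).2).trans (norm_snd_le (Tu η w u))
      rw [norm_mul, Real.norm_of_nonneg (by positivity), inv_pow,
        inv_mul_le_iff₀ (by positivity)] at h1
      exact h1
    refine ww_le N R δ (w ^ 2) W z z' hC0 hX0 ?_ ?_
    · rw [hfc, hfst (w ^ 2) (by positivity), abs_mul, abs_of_nonneg (by positivity),
        inv_mul_le_iff₀ (by positivity), lo_split c η]
      have h1 : |⟪u.2.1 + (2 * u.2.2) • η, c - η⟫| ≤ (w * X) * (2 * D) :=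
        (abs_real_inner_le_norm _ _).trans (mul_le_mul e2 hce (norm_nonneg _) (by positivity))
      have h2 : |u.2.2 * ‖c - η‖ ^ 2| ≤ (w ^ 2 * X) * (2 * D) ^ 2 := by
        rw [abs_mul, abs_of_nonneg (sq_nonneg ‖c - η‖)]
        exact mul_le_mul e3 (pow_le_pow_left₀ (norm_nonneg _) hce 2) (by positivity)
          (by positivity)
      have h3 := abs_add_three (u.1 + ⟪u.2.1, η⟫ + u.2.2 * ‖η‖ ^ 2)
        ⟪u.2.1 + (2 * u.2.2) • η, c - η⟫ (u.2.2 * ‖c - η‖ ^ 2)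
      have h4 : w * X + w * X * (2 * D) + w ^ 2 * X * (2 * D) ^ 2 ≤ w ^ 2 * (C₀ * X) := by
        have h5 : w * X ≤ w ^ 2 * X := by
          refine mul_le_mul_of_nonneg_right ?_ hX0
          nlinarith
        have h6 : w * X * (2 * D) ≤ w ^ 2 * X * (2 * D) :=
          mul_le_mul_of_nonneg_right h5 (by linarith)
        have h7 : w ^ 2 * X * (1 + 2 * D + 4 * D ^ 2) ≤ w ^ 2 * X * C₀ :=
          mul_le_mul_of_nonneg_left hC2 (by positivity)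
        nlinarith
      linarith
    · rw [hfc]
      refine hsnd.trans ?_
      change ‖(sR R • (u.2.1 + (2 * u.2.2) • c), (sR R) ^ 2 * u.2.2)‖ ≤ _
      rw [Prod.norm_def]
      refine max_le ?_ ?_
      · change ‖sR R • (u.2.1 + (2 * u.2.2) • c)‖ ≤ _
        have h1 : u.2.1 + (2 * u.2.2) • c =
            (u.2.1 + (2 * u.2.2) • η) + (2 * u.2.2) • (c - η) := by
          rw [smul_sub]
          abel
        rw [h1, norm_smul, Real.norm_of_nonneg hs0.le]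
        have h2 : ‖(2 * u.2.2) • (c - η)‖ ≤ 2 * (w ^ 2 * X) * (2 * D) := by
          rw [norm_smul, Real.norm_eq_abs, abs_mul, abs_two]
          exact mul_le_mul (by linarith) hce (norm_nonneg _) (by positivity)
        have h3 := (norm_add_le (u.2.1 + (2 * u.2.2) • η) ((2 * u.2.2) • (c - η))).trans
          (add_le_add e2 h2)
        calc sR R * ‖u.2.1 + (2 * u.2.2) • η + (2 * u.2.2) • (c - η)‖
            ≤ sR R * (w * X + 2 * (w ^ 2 * X) * (2 * D)) :=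
              mul_le_mul_of_nonneg_left h3 hs0.le
          _ = (w * sR R) * X + (w ^ 2 * sR R) * (4 * D * X) := by ring
          _ ≤ 1 * X + 1 * (4 * D * X) :=
              add_le_add (mul_le_mul_of_nonneg_right hws hX0)
                (mul_le_mul_of_nonneg_right hw2s (by positivity))
          _ = (1 + 4 * D) * X := by ring
          _ ≤ C₀ * X := mul_le_mul_of_nonneg_right hC3 hX0
      · change ‖(sR R) ^ 2 * u.2.2‖ ≤ _
        rw [norm_mul, Real.norm_of_nonneg (by positivity)]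
        calc sR R ^ 2 * ‖u.2.2‖ ≤ sR R ^ 2 * (w ^ 2 * X) :=
              mul_le_mul_of_nonneg_left e3 (by positivity)
          _ = (w * sR R) ^ 2 * X := by ring
          _ ≤ 1 * X := mul_le_mul_of_nonneg_right (pow_le_one₀ (by positivity) hws) hX0
          _ ≤ C₀ * X := mul_le_mul_of_nonneg_right (by nlinarith) hX0
  · -- the scale `R / w ^ 2`
    intro η hη
    rw [← hc] at hη
    have hws0 : 0 < w * sR R := by positivity
    have hb := hB3 η c (w * sR R) (w * sR R) u' hws0 le_rfl hη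
    have h1 : ‖R ^ (-δ) • Lo c (w * sR R) u'‖ ≤ C₀ * ‖R ^ (-δ) • Lo η (w * sR R) u'‖ := by
      rw [norm_smul, norm_smul, Real.norm_of_nonneg hRn.le]
      calc R ^ (-δ) * ‖Lo c (w * sR R) u'‖ ≤ R ^ (-δ) * ((1 + D) ^ 2 * ‖Lo η (w * sR R) u'‖) :=
            mul_le_mul_of_nonneg_left hb hRn.le
        _ ≤ R ^ (-δ) * (C₀ * ‖Lo η (w * sR R) u'‖) :=
            mul_le_mul_of_nonneg_left (mul_le_mul_of_nonneg_right hC1 (norm_nonneg _)) hRn.le
        _ = _ := by ring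
    refine ww_le N R δ (w * R ^ δ) W z z' hC0 (norm_nonneg _) ?_ ?_
    · rw [hfc, hfst (w * R ^ δ) (by positivity), hlin]
      change |(w * R ^ δ)⁻¹ * (w * (Lo c (sR R) u').1)| ≤ _
      have h2 : (w * R ^ δ)⁻¹ * (w * (Lo c (sR R) u').1) =
          R ^ (-δ) * (Lo c (w * sR R) u').1 := by
        rw [Lo_fst c (sR R) (w * sR R) u', mul_inv, Real.rpow_neg hR0.le]
        field_simp
      rw [h2]
      exact (norm_fst_le (R ^ (-δ) • Lo c (w * sR R) u')).trans h1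
    · rw [hfc]
      refine le_trans ?_ ((norm_snd_le (R ^ (-δ) • Lo c (w * sR R) u')).trans h1)
      change ‖R ^ (-δ) • (Lo c (sR R) u).2‖ ≤ ‖R ^ (-δ) • (Lo c (w * sR R) u').2‖
      rw [norm_smul, norm_smul]
      refine mul_le_mul_of_nonneg_left ?_ (norm_nonneg _)
      rw [hlin]
      have h2 : w * sR R ^ 2 ≤ (w * sR R) ^ 2 := by
        have h3 : 0 ≤ (w - 1) * (w * sR R ^ 2) :=
          mul_nonneg (by linarith) (by positivity)
        have h4 : (w * sR R) ^ 2 - w * sR R ^ 2 = (w - 1) * (w * sR R ^ 2) := by ring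
        linarith
      exact snd_le c u' hs0.le hw0.le le_rfl h2

end Pool.Agent.H37.HLM
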